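import Mathlib
import Pool.Agent.Lib.MP_b197b4_ntH.HT
import Pool.Agent.Lib.MP_b197b4_ntA.AMain
import Pool.Agent.Lib.MP_b197b4_ntK.CApprox
import Pool.Agent.Lib.MP_b197b4_ntK.BZ
import Pool.Agent.Lib.MP_b197b4_ntK.GPos
import Pool.Agent.Lib.MP_b197b4_ntA.Apr
import Pool.Agent.Lib.MP_b197b4_ntK.CurveN
import Pool.Agent.Lib.MP_b197b4_ntK.Final

/-!
# MP_b197b4_nt, project K1: assembly over the algebraic closure of a finite field
-/

set_option autoImplicit false

namespace Pool.Agent.Lib.MP_b197b4_ntK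

open IsLocalRing

open MPb197b4P (Core Bert)

variable {k F : Type} [Field k] [Field F] [Algebra k F] {n : ℕ} {x : Fin (n + 1) → F}
  {l : ∀ V : ValuationSubring F, ResidueField V → ℚ} {ν : ValuationSubring F → ℚ}

/-- S1 in the form of part A. -/
theorem kill_of_s1 (hS : SurfN k x) {a : ℕ} (h : S1 k x l ν a) :
    ∃ h : Subring F → ℚ, (∀ O, ¬ Loc2 O → h O = 0) ∧
      Kill k x (fun V u => l V u - ptForm (charts k x) h V u)
        (fun V => ν V - eh k x h V) a := by
  obtain ⟨h, hz, hr⟩ := h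
  refine ⟨h, hz, fun t V hp b s hs hs0 hv hreg => ?_⟩
  have h1 := hr t V hp b s hs hs0 hv hreg
  have h2 := Lam_ptForm hS hz hp.curve hs hs0 hv
  have h3 : Lam x (fun V u => l V u - ptForm (charts k x) h V u)
      (fun V => ν V - eh k x h V) V s b =
      Lam x l ν V s b - Lam x (ptForm (charts k x) h) (eh k x h) V s b := by
    unfold Lam
    ring
  rw [h3, h1, h2, sub_self]

/-- Constants are roots of unity. -/
theorem root_of_unity (p : ℕ) [hp : Fact p.Prime] (halg : ∀ a : k, ∃ m : ℕ, 0 < m ∧ a ^ p ^ m = a)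
    (c : k) (hc : c ≠ 0) : ∃ N : ℕ, 0 < N ∧ c ^ N = 1 := by
  obtain ⟨m, hm, h⟩ := halg c
  have h1 : 1 < p ^ m := Nat.one_lt_pow hm.ne' hp.out.one_lt
  refine ⟨p ^ m - 1, by omega, ?_⟩
  have h2 : c ^ (p ^ m - 1) * c = 1 * c := by
    rw [← pow_succ, Nat.sub_add_cancel h1.le, h, one_mul]
  exact mul_right_cancel₀ hc h2

/-- **GLOBAL.** -/
theorem global_surf (p : ℕ) [Fact p.Prime] [CharP k p] [IsAlgClosed k]
    (halg : ∀ a : k, ∃ m : ℕ, 0 < m ∧ a ^ p ^ m = a) (hcore : Core k) (hS : Surf k x)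
    (hP : Pencil k x) : Global (charts k x) := by
  have hrou := root_of_unity p halg
  have hN := hS.toN
  refine global_of_sub (charts_finite x) hS.charts_chart hS.sep fun l hl => ?_
  obtain ⟨ν, hν⟩ := exists_LS_eq_zero hl hS.ne (by
    intro f hf h
    obtain ⟨c, rfl⟩ := hN.const_of_ord hf h
    have hc : c ≠ 0 := by
      rintro rfl
      exact hf (map_zero _)
    obtain ⟨N, hN0, hN1⟩ := hrou c hc
    exact ⟨N, hN0, by rw [← map_pow, hN1, map_one]⟩)
  obtain ⟨h, hz, hh⟩ := exists_points_form p hrou hN hP hl hν fun M hM =>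
    kill_of_s1 hN (s1 hcore hN hl hrou hν hM)
  refine ⟨h, fun V hV u hu => ?_⟩
  have hl' := forms_ptForm hN hz
  have h1 := bprime (e := fun V => ν V - eh k x h V) hS (hl.sub hl') ?_
    (curveApprox hS) (singFin hS) (genPos hS) ?_ V hV u hu
  · linarith
  · intro V hV u hu hreg
    have h2 := hh V hV u hu fun O hO hOV hg => hreg O hO hOV fun hd => hg ⟨?_, hd⟩
    · simp only [h2, sub_self]
    · exact loc2_of_points hS.charts_chart hO
  · intro f g a b hf hg
    rw [LS_sub hl hl' hS.ne hf hg, hν f g a b hf hg, LS_ptForm hN hz hf hg a b, sub_zero]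

/-- K_1 of regular projective surfaces over the algebraic closure of a finite field is torsion. -/
theorem k1Proj_closed (p : ℕ) [Fact p.Prime] (k : Type) [Field k] [CharP k p] [IsAlgClosed k]
    (halg : ∀ a : k, ∃ m : ℕ, 0 < m ∧ a ^ p ^ m = a) (hcore : Core k)
    (hP : ∀ (F : Type) [Field F] [Algebra k F] (n : ℕ) (x : Fin (n + 1) → F), SurfN k x →
      Pencil k x) : K1Proj k :=
  k1Proj_of_global fun F _ _ n x hx => global_surf p halg hcore hx (hP F n x hx.toN)

end Pool.Agent.Lib.MP_b197b4_ntK
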