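import Mathlib
import Pool.Agent.Lib.MP_b197b4_ntA.ADefs
import Pool.Agent.Lib.MP_b197b4_ntK.Norm
import Pool.Agent.Lib.MP_b197b4_ntK.Pts

/-!
# MP_b197b4_nt, projects K1 and K1-ALL: from a form given by a function on the points to `LocalN`
-/

set_option autoImplicit false
set_option linter.style.haveILetI false

namespace Pool.Agent.Lib.MP_b197b4_ntK

open IsLocalRing

variable {k : Type} {F : Type} [Field k] [Field F] [Algebra k F] {n : ℕ}

theorem LTa_surfN {x : Fin (n + 1) → F} (hx : NSurf k x) : SurfN k x :=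
  ⟨hx.ne, fun i => ⟨(hx.chart i).fg, (hx.chart i).frac, (hx.chart i).normal, (hx.chart i).height⟩⟩

theorem LTa_good {A : Subalgebra k F} (hA : NChart A) {m : Ideal A} (hm : m.IsMaximal)
    {O : Subring F} (hO : IsLoc A m O) {V : ValuationSubring F} (hg : GoodPt O V) :
    GoodAt O V := by
  have hp : m.IsPrime := hm.isPrime
  refine ⟨loc2_of_regular hg.1 ?_ fun y => ?_, hg.2⟩
  · letI := (hO.incl hp.ne_top).toAlgebra
    haveI := hO.isLocalization
    rw [IsLocalization.AtPrime.ringKrullDim_eq_height m O, hA.height m hm]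
    rfl
  · have := hA.frac
    obtain ⟨a, b, hb, rfl⟩ := IsFractionRing.div_surjective (A := A) y
    refine ⟨⟨a, hO.coe_mem hp.ne_top a⟩, ⟨b, hO.coe_mem hp.ne_top b⟩, ?_, rfl⟩
    intro h
    exact (nonZeroDivisors.ne_zero hb) (Subtype.ext h)

theorem LTa_unit {A : Subalgebra k F} {m : Ideal A} (hm : m.IsMaximal)
    {O : Subring F} (hO : IsLoc A m O) {V : ValuationSubring F} (hOV : (O : Set F) ⊆ V)
    {u : ResidueField V} (hu : u ≠ 0) (h1 : u ∈ curveLoc O V) (h2 : u⁻¹ ∈ curveLoc O V) :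
    UnitAt O V u := by
  have hp : m.IsPrime := hm.isPrime
  letI := (hO.incl hp.ne_top).toAlgebra
  haveI := hO.isLocalization
  haveI : IsLocalRing O := IsLocalization.AtPrime.isLocalRing O m
  obtain ⟨a, ha, rfl⟩ := h1
  obtain ⟨b, hb, hba⟩ := h2
  have hab : residue V (a * b) = 1 := by
    rw [map_mul, hba]
    exact mul_inv_cancel₀ hu
  -- the product `a * b` is a unit of `O`
  have haO : (a : F) ∈ O := ha
  have hbO : (b : F) ∈ O := hb
  have hunit : IsUnit (⟨(a : F), haO⟩ * ⟨(b : F), hbO⟩ : O) := by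
    by_contra hn
    have h3 : IsUnit (1 - ⟨(a : F), haO⟩ * ⟨(b : F), hbO⟩ : O) := by
      by_contra h4
      have h5 := (mem_nonunits_iff.2 hn)
      have h6 := (mem_nonunits_iff.2 h4)
      have h7 := IsLocalRing.nonunits_add h5 h6
      rw [add_sub_cancel] at h7
      exact h7 isUnit_one
    let j : O →+* V := O.subtype.codRestrict V.toSubring fun y => hOV y.2
    have h4 : IsUnit (j (1 - ⟨(a : F), haO⟩ * ⟨(b : F), hbO⟩)) := h3.map j
    have h5 : j (1 - ⟨(a : F), haO⟩ * ⟨(b : F), hbO⟩) = 1 - a * b := Subtype.ext rfl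
    rw [h5] at h4
    have h6 : residue V (1 - a * b) = 0 := by rw [map_sub, hab, map_one, sub_self]
    exact (residue_ne_zero_iff_isUnit (R := V) _).2 h4 h6
  refine ⟨⟨(a : F), haO⟩, isUnit_of_mul_isUnit_left hunit, ?_⟩
  change res V (a : F) = residue V a
  unfold res
  rw [dif_pos a.2]

/-- A form which is given by a function on the points, for the functions which are units at the
points which are not good. -/
theorem LTa_localN {x : Fin (n + 1) → F} (hx : NSurf k x)
    {l : ∀ V : ValuationSubring F, ResidueField V → ℚ}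
    (H : ∃ h : Subring F → ℚ, (∀ O, ¬ Loc2 O → h O = 0) ∧
      ∀ V ∈ Curves (charts k x), ∀ u : ResidueField V, u ≠ 0 →
      (∀ O ∈ Points (charts k x), (O : Set F) ⊆ V → ¬ GoodAt O V → UnitAt O V u) →
      l V u = ptForm (charts k x) h V u) : LocalN (charts k x) l := by
  obtain ⟨h, -, hh⟩ := H
  refine ⟨h, fun V hV u hu hb => ?_⟩
  refine hh V hV u hu fun O hO hOV hg => ?_
  obtain ⟨A, ⟨i, rfl⟩, m, hm, hOm⟩ := hO
  have h1 : ¬ GoodPt O V := fun h2 => hg (LTa_good (hx.chart i) hm hOm h2)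
  obtain ⟨h2, h3⟩ := hb O ⟨_, ⟨i, rfl⟩, m, hm, hOm⟩ hOV h1
  exact LTa_unit hm hOm hOV hu h2 h3

end Pool.Agent.Lib.MP_b197b4_ntK
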