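import Mathlib
import Pool.Agent.Lib.MP_b197b4_ntF.Glob
import Pool.Agent.Lib.MP_b197b4_ntF.LTa

/-!
# MP_b197b4_nt, projects K1 and K1-ALL: the local theorem for normal projective surfaces
-/

set_option autoImplicit false

namespace Pool.Agent.Lib.MP_b197b4_ntK

open IsLocalRing

open MPb197b4P (Core Bert)

/-- **`LTnorm`**: every form on the curves of a normal projective surface over the algebraic closure
of a finite field which kills the tame symbols is given by a function on the closed points, for the
functions on curves which are units at the bad points. -/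
theorem ltnorm_closed (p : ℕ) [Fact p.Prime] (k : Type) [Field k] [CharP k p] [IsAlgClosed k]
    (halg : ∀ a : k, ∃ m : ℕ, 0 < m ∧ a ^ p ^ m = a) (hcore : Core k)
    (hP : ∀ (F : Type) [Field F] [Algebra k F] (n : ℕ) (x : Fin (n + 1) → F), SurfN k x →
      Pencil k x) : LTnorm k := by
  intro F _ _ n x hx l hl
  have hrou := root_of_unity p halg
  have hN := LTa_surfN hx
  obtain ⟨ν, hν⟩ := exists_LS_eq_zero hl hN.ne (by
    intro f hf h
    obtain ⟨c, rfl⟩ := hN.const_of_ord hf h
    have hc : c ≠ 0 := by
      rintro rfl
      exact hf (map_zero _)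
    obtain ⟨N, hN0, hN1⟩ := hrou c hc
    exact ⟨N, hN0, by rw [← map_pow, hN1, map_one]⟩)
  exact LTa_localN hx (exists_points_form p hrou hN (hP F n x hN) hl hν fun M hM =>
    kill_of_s1 hN (s1 hcore hN hl hrou hν hM))

end Pool.Agent.Lib.MP_b197b4_ntK
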