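import Mathlib

/-!
# MP_b197b4_nt, project K1: fields algebraic over a prime field
-/

set_option autoImplicit false

namespace Pool.Agent.Lib.MP_b197b4_ntK

/-- An element algebraic over the prime field. -/
theorem pow_eq_of_algebraic (p : ℕ) [hp : Fact p.Prime] {K : Type} [Field K] [Algebra (ZMod p) K]
    (a : K) (h : IsIntegral (ZMod p) a) : ∃ m : ℕ, 0 < m ∧ a ^ p ^ m = a := by
  let E := IntermediateField.adjoin (ZMod p) {a}
  have hfd : FiniteDimensional (ZMod p) E := IntermediateField.adjoin.finiteDimensional h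
  have hfin : Finite E := Module.finite_of_finite (ZMod p)
  let _ : Fintype E := Fintype.ofFinite E
  let m := Module.finrank (ZMod p) E
  have hcard : Fintype.card E = p ^ m := by
    rw [Module.card_eq_pow_finrank (K := ZMod p) (V := E), ZMod.card]
  refine ⟨m, Module.finrank_pos, ?_⟩
  have h1 : (⟨a, IntermediateField.mem_adjoin_simple_self (ZMod p) a⟩ : E) ^ Fintype.card E =
      ⟨a, IntermediateField.mem_adjoin_simple_self (ZMod p) a⟩ := FiniteField.pow_card _
  rw [hcard] at h1
  exact congrArg Subtype.val h1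

/-- The converse. -/
theorem algebraic_of_pow (p : ℕ) [hp : Fact p.Prime] {K : Type} [Field K] [Algebra (ZMod p) K]
    (a : K) (h : ∃ m : ℕ, 0 < m ∧ a ^ p ^ m = a) : IsIntegral (ZMod p) a := by
  obtain ⟨m, hm, h⟩ := h
  have h1 : 1 < p ^ m := Nat.one_lt_pow hm.ne' hp.out.one_lt
  refine ⟨Polynomial.X ^ p ^ m - Polynomial.X, ?_, ?_⟩
  · refine Polynomial.monic_X_pow_sub ?_
    rw [Polynomial.degree_X]
    exact_mod_cast h1
  · simp [h]

/-- Passage to an algebraic extension. -/
theorem pow_eq_of_tower (p : ℕ) [hp : Fact p.Prime] (k K : Type) [Field k] [Field K] [Algebra k K]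
    [CharP k p] [Algebra.IsAlgebraic k K] (halg : ∀ a : k, ∃ m : ℕ, 0 < m ∧ a ^ p ^ m = a) (a : K) :
    ∃ m : ℕ, 0 < m ∧ a ^ p ^ m = a := by
  let _ : Algebra (ZMod p) k := ZMod.algebra k p
  let _ : Algebra (ZMod p) K := ((algebraMap k K).comp (algebraMap (ZMod p) k)).toAlgebra
  have _ : IsScalarTower (ZMod p) k K := IsScalarTower.of_algebraMap_eq fun _ => rfl
  have h1 : Algebra.IsIntegral (ZMod p) k := ⟨fun b => algebraic_of_pow p b (halg b)⟩
  have h2 : IsIntegral k a := (Algebra.IsAlgebraic.isAlgebraic a).isIntegral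
  exact pow_eq_of_algebraic p a (isIntegral_trans (R := ZMod p) (A := k) a h2)

/-- Such a field is perfect. -/
theorem perfect_of_pow (p : ℕ) [hp : Fact p.Prime] (k : Type) [Field k] [CharP k p]
    (halg : ∀ a : k, ∃ m : ℕ, 0 < m ∧ a ^ p ^ m = a) : PerfectField k := by
  have h : PerfectRing k p := by
    refine PerfectRing.ofSurjective k p fun a => ?_
    obtain ⟨m, hm, h⟩ := halg a
    refine ⟨a ^ p ^ (m - 1), ?_⟩
    rw [frobenius_def, ← pow_mul, ← pow_succ, Nat.sub_add_cancel hm, h]
  exact PerfectRing.toPerfectField k p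

end Pool.Agent.Lib.MP_b197b4_ntK
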