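import Mathlib
import Pool.Agent.Lib.MP_b197b4_ntF.Glob
import Pool.Agent.Lib.MP_b197b4_ntF.Alg
import Pool.Agent.Lib.MP_b197b4_ntKD.Fin
import Pool.Agent.Lib.MP_b197b4_ntC.CF
import Pool.Agent.Lib.MP_b197b4_ntP.BertOne
import Pool.Agent.Lib.MP_b197b4_ntQ.PenE

/-!
# MP_b197b4_nt, project K1: the theorem over fields algebraic over a finite field
-/

set_option autoImplicit false

namespace Pool.Agent.Lib.MP_b197b4_ntK

open MPb197b4P (Core Bert)

/-- **Theorem K1.** -/
theorem k1_main (p : ℕ) [Fact p.Prime] (k : Type) [Field k] [CharP k p]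
    (halg : ∀ a : k, ∃ m : ℕ, 0 < m ∧ a ^ p ^ m = a) : K1Proj k := by
  have _ := perfect_of_pow p k halg
  have _ : CharP (AlgebraicClosure k) p := charP_of_injective_algebraMap
    (algebraMap k (AlgebraicClosure k)).injective p
  have h := pow_eq_of_tower p k (AlgebraicClosure k) halg
  exact MP_b197b4_ntKD.k1Proj_descent k (AlgebraicClosure k)
    (k1Proj_closed p (AlgebraicClosure k) h (MPb197b4P.core p (AlgebraicClosure k) h)
      fun F _ _ n x hx => pencil (MPb197b4P.bert_one (AlgebraicClosure k)) hx)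

end Pool.Agent.Lib.MP_b197b4_ntK
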